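import Mathlib
import Pool.Agent.Q288.Condorcet.Words

/-!
# MP_43f1fb_co: the majority relation on the Condorcet domains of powers of a bipartite Coxeter
element

Permutations of `{1, …, n}` are permutations of `ℕ` which fix everything else.
The elements of `D_{n,p}` correspond to the walks `x_1, …, x_{n-1}` on the path `0, …, 2p+1` with
`x_i ≡ i + 1` modulo 2: `x_i` is `2 c` (`i` odd) or `2 c + 1` (`i` even) where `c` is the number of
letters `i` used.  The two values swapped by the letter `i` of the block number `T + 1` are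
swapped in the permutation if and only if `x_i > T`.  Reflection of the excursion of the walk
around `i` at the height `T + 1` gives an injection between the walks with `x_i < T + 1` and those
with `x_i > T + 1`, which is not surjective.
-/

set_option autoImplicit false

open Set Pool.Agent.Q288.Condorcet

namespace Pool.Agent.Results.MP_43f1fb_co.MajorityOrder

variable {n p : ℕ}

/-! ### Walks -/

/-- The walks, extended by zero. -/
def W (n p : ℕ) : Set (ℕ → ℕ) :=
  {x | Valid n p x ∧ (∀ i, 1 ≤ i → i + 1 ≤ n → x i % 2 = (i + 1) % 2) ∧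
    ∀ i, ¬ (1 ≤ i ∧ i + 1 ≤ n) → x i = 0}

/-- The heights, extended by zero. -/
def ht0 (n : ℕ) (v : List ℕ) (i : ℕ) : ℕ := if 1 ≤ i ∧ i + 1 ≤ n then ht v i else 0

theorem ht0_mem {v : List ℕ} (h : Good n p v) : ht0 n v ∈ W n p := by
  refine ⟨(h.valid v List.prefix_rfl).congr fun i hi hi' => if_pos ⟨hi, hi'⟩, ?_, ?_⟩
  · intro i hi hi'
    rw [ht0, if_pos ⟨hi, hi'⟩, ht_parity]
  · intro i hi
    exact if_neg hi

theorem W_finite (n p : ℕ) : (W n p).Finite := by
  have h : Set.InjOn (fun (x : ℕ → ℕ) (j : Fin n) => (Fin.ofNat (2 * p + 2) (x j))) (W n p) := by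
    rintro x ⟨hx, -, hx0⟩ y ⟨hy, -, hy0⟩ h
    ext i
    by_cases hi : 1 ≤ i ∧ i + 1 ≤ n
    · have h1 := congrArg Fin.val (congrFun h ⟨i, by omega⟩)
      have h2 := hx.le i hi.1 hi.2
      have h3 := hy.le i hi.1 hi.2
      simp only [Fin.ofNat] at h1
      rw [Nat.mod_eq_of_lt (by omega), Nat.mod_eq_of_lt (by omega)] at h1
      exact h1
    · rw [hx0 i hi, hy0 i hi]
  exact Set.Finite.of_injOn (t := Set.univ) (fun _ _ => Set.mem_univ _) h Set.finite_univ

/-- The part of the columns around `i` where the walk does not meet the height `c`. -/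
def Avoids (x : ℕ → ℕ) (c i j : ℕ) : Prop := ∀ k, min i j ≤ k → k ≤ max i j → x k ≠ c

open Classical in
/-- The reflection of the excursion around `i` at the height `c`. -/
noncomputable def refl (x : ℕ → ℕ) (c i j : ℕ) : ℕ := if Avoids x c i j then 2 * c - x j else x j

theorem avoids_self {x : ℕ → ℕ} {c i : ℕ} (h : x i ≠ c) : Avoids x c i i := by
  intro k h1 h2
  have : k = i := by omega
  rwa [this]

theorem Avoids.mono {x : ℕ → ℕ} {c i j k : ℕ} (h : Avoids x c i j) (h1 : min i j ≤ k)
    (h2 : k ≤ max i j) : Avoids x c i k := by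
  intro l h3 h4
  exact h l (by omega) (by omega)

/-- An excursion below the height `c` stays below it. -/
theorem below {x : ℕ → ℕ} (hx : Valid n p x) {c i : ℕ} (hi : 1 ≤ i) (hin : i + 1 ≤ n)
    (hxi : x i < c) (d : ℕ) : ∀ j, (i = j + d ∨ j = i + d) → 1 ≤ j → j + 1 ≤ n →
    Avoids x c i j → x j < c := by
  induction d with
  | zero =>
    intro j hd _ _ _
    have : j = i := by omega
    rwa [this]
  | succ d ih =>
    intro j hd hj hjn h
    have h3 := h j (by omega) (by omega)
    rcases hd with hd | hd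
    · have h1 := ih (j + 1) (Or.inl (by omega)) (by omega) (by omega)
        (h.mono (by omega) (by omega))
      have h2 := hx.adj j hj (by omega)
      omega
    · have h1 := ih (j - 1) (Or.inr (by omega)) (by omega) (by omega)
        (h.mono (by omega) (by omega))
      have h2 := hx.adj (j - 1) (by omega) (by omega)
      rw [show j - 1 + 1 = j by omega] at h2
      omega

/-- An excursion above the height `c` stays above it. -/
theorem above {x : ℕ → ℕ} (hx : Valid n p x) {c i : ℕ} (hi : 1 ≤ i) (hin : i + 1 ≤ n)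
    (hxi : c < x i) (d : ℕ) : ∀ j, (i = j + d ∨ j = i + d) → 1 ≤ j → j + 1 ≤ n →
    Avoids x c i j → c < x j := by
  induction d with
  | zero =>
    intro j hd _ _ _
    have : j = i := by omega
    rwa [this]
  | succ d ih =>
    intro j hd hj hjn h
    have h3 := h j (by omega) (by omega)
    rcases hd with hd | hd
    · have h1 := ih (j + 1) (Or.inl (by omega)) (by omega) (by omega)
        (h.mono (by omega) (by omega))
      have h2 := hx.adj j hj (by omega)
      omega
    · have h1 := ih (j - 1) (Or.inr (by omega)) (by omega) (by omega)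
        (h.mono (by omega) (by omega))
      have h2 := hx.adj (j - 1) (by omega) (by omega)
      rw [show j - 1 + 1 = j by omega] at h2
      omega

theorem exists_dist (i j : ℕ) : ∃ d, i = j + d ∨ j = i + d := by
  rcases le_total i j with h | h
  · exact ⟨j - i, by omega⟩
  · exact ⟨i - j, by omega⟩

/-- If `j` is in the excursion and a neighbour `k` of it is not, then the walk is at `c` in `k`. -/
theorem boundary {x : ℕ → ℕ} {c i j k : ℕ} (h : Avoids x c i j) (h' : ¬ Avoids x c i k)
    (hjk : k = j + 1 ∨ j = k + 1) : x k = c := by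
  by_contra hne
  apply h'
  intro l h1 h2
  by_cases hl : l = k
  · rwa [hl]
  · exact h l (by omega) (by omega)

/-- The reflected heights form a walk provided that they are in the right range. -/
theorem refl_valid {x : ℕ → ℕ} (hx : Valid n p x) {c i : ℕ}
    (hb : ∀ j, 1 ≤ j → j + 1 ≤ n → Avoids x c i j → x j ≤ 2 * c ∧ 2 * c ≤ x j + (2 * p + 1)) :
    Valid n p (refl x c i) := by
  constructor
  · intro j hj hjn
    have h1 := hx.adj j hj hjn
    unfold refl
    split_ifs with h2 h3 h3
    · have h4 := hb j hj (by omega) h3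
      have h5 := hb (j + 1) (by omega) (by omega) h2
      omega
    · have h4 := boundary h2 h3 (by omega)
      have h5 := hb (j + 1) (by omega) (by omega) h2
      omega
    · have h4 := boundary h3 h2 (by omega)
      have h5 := hb j hj (by omega) h3
      omega
    · exact h1
  · intro j hj hjn
    unfold refl
    split_ifs with h2
    · have h4 := hb j hj hjn h2
      omega
    · exact hx.le j hj hjn

/-- The reflection, extended by zero. -/
noncomputable def refl0 (n : ℕ) (x : ℕ → ℕ) (c i j : ℕ) : ℕ :=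
  if 1 ≤ j ∧ j + 1 ≤ n then refl x c i j else 0

theorem refl0_mem {x : ℕ → ℕ} (hx : x ∈ W n p) {c i : ℕ}
    (hb : ∀ j, 1 ≤ j → j + 1 ≤ n → Avoids x c i j → x j ≤ 2 * c ∧ 2 * c ≤ x j + (2 * p + 1)) :
    refl0 n x c i ∈ W n p := by
  refine ⟨(refl_valid hx.1 hb).congr fun j hj hjn => if_pos ⟨hj, hjn⟩, ?_, fun j hj => if_neg hj⟩
  intro j hj hjn
  have h1 := hx.2.1 j hj hjn
  rw [refl0, if_pos ⟨hj, hjn⟩, refl]
  split_ifs with h2
  · have h3 := hb j hj hjn h2
    omega
  · exact h1

/-- The reflection has the same excursion. -/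
theorem avoids_refl0 {x : ℕ → ℕ} {c i j : ℕ} (hi : 1 ≤ i) (hin : i + 1 ≤ n) (hj : 1 ≤ j)
    (hjn : j + 1 ≤ n) (hb : ∀ j, 1 ≤ j → j + 1 ≤ n → Avoids x c i j → x j ≤ 2 * c) :
    Avoids (refl0 n x c i) c i j ↔ Avoids x c i j := by
  constructor
  · intro h k h1 h2 h3
    apply h k h1 h2
    have h4 : ¬ Avoids x c i k := fun h5 => h5 k (by omega) (by omega) h3
    rw [refl0, if_pos ⟨by omega, by omega⟩, refl, if_neg h4, h3]
  · intro h k h1 h2
    have h3 : Avoids x c i k := h.mono h1 h2
    have h4 := hb k (by omega) (by omega) h3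
    have h5 := h k h1 h2
    rw [refl0, if_pos ⟨by omega, by omega⟩, refl, if_pos h3]
    omega

theorem refl0_refl0 {x : ℕ → ℕ} (hx : x ∈ W n p) {c i : ℕ} (hi : 1 ≤ i) (hin : i + 1 ≤ n)
    (hb : ∀ j, 1 ≤ j → j + 1 ≤ n → Avoids x c i j → x j ≤ 2 * c) :
    refl0 n (refl0 n x c i) c i = x := by
  ext j
  by_cases hj : 1 ≤ j ∧ j + 1 ≤ n
  · rw [refl0, if_pos hj, refl]
    by_cases h : Avoids x c i j
    · rw [if_pos ((avoids_refl0 hi hin hj.1 hj.2 hb).2 h), refl0, if_pos hj, refl, if_pos h]
      have := hb j hj.1 hj.2 h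
      omega
    · rw [if_neg (fun h' => h ((avoids_refl0 hi hin hj.1 hj.2 hb).1 h')), refl0, if_pos hj, refl,
        if_neg h]
  · rw [refl0, if_neg hj, hx.2.2 j hj]

/-- The number of walks on one side of the height `c` at the column `i` is less than the number
of walks on the other side. -/
theorem ncard_lt {A B : Set (ℕ → ℕ)} {c i : ℕ} (hi : 1 ≤ i) (hin : i + 1 ≤ n) (hA : A ⊆ W n p)
    (hB : B ⊆ W n p) (hb : ∀ x ∈ A, ∀ j, 1 ≤ j → j + 1 ≤ n → Avoids x c i j →
      x j ≤ 2 * c ∧ 2 * c ≤ x j + (2 * p + 1))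
    (hAB : ∀ x ∈ A, refl0 n x c i ∈ B) {y : ℕ → ℕ} (hy : y ∈ B)
    (hyA : ∀ x ∈ A, refl0 n x c i ≠ y) : A.ncard < B.ncard := by
  have hinj : Set.InjOn (fun x => refl0 n x c i) A := by
    intro x hx z hz h
    simp only at h
    rw [← refl0_refl0 (hA hx) hi hin (fun j h1 h2 h3 => (hb x hx j h1 h2 h3).1), h,
      refl0_refl0 (hA hz) hi hin (fun j h1 h2 h3 => (hb z hz j h1 h2 h3).1)]
  rw [← hinj.ncard_image]
  apply Set.ncard_lt_ncard _ ((W_finite n p).subset hB)
  refine ⟨?_, fun h => ?_⟩
  · rintro _ ⟨x, hx, rfl⟩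
    exact hAB x hx
  · obtain ⟨x, hx, hxy⟩ := h hy
    exact hyA x hx hxy

theorem ncard_low_lt {i T : ℕ} (hn : 3 ≤ n) (hi : 1 ≤ i) (hin : i + 1 ≤ n)
    (hpar : (i + T) % 2 = 1) (hT : T < p) :
    {x ∈ W n p | ¬ T < x i}.ncard < {x ∈ W n p | T < x i}.ncard := by
  have hbelow : ∀ x ∈ W n p, ¬ T < x i → ∀ j, 1 ≤ j → j + 1 ≤ n → Avoids x (T + 1) i j →
      x j < T + 1 := by
    intro x hx hxi j hj hjn h
    obtain ⟨d, hd⟩ := exists_dist i j
    exact below hx.1 hi hin (by omega) d j hd hj hjn h
  have hb : ∀ x ∈ {x ∈ W n p | ¬ T < x i}, ∀ j, 1 ≤ j → j + 1 ≤ n → Avoids x (T + 1) i j →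
      x j ≤ 2 * (T + 1) ∧ 2 * (T + 1) ≤ x j + (2 * p + 1) := by
    rintro x ⟨hx, hxi⟩ j hj hjn h
    have := hbelow x hx hxi j hj hjn h
    omega
  refine ncard_lt (c := T + 1) (i := i) hi hin (fun x hx => hx.1) (fun x hx => hx.1) hb ?_
    (y := fun j => if 1 ≤ j ∧ j + 1 ≤ n then 2 * T + 2 + (j + 1) % 2 else 0) ?_ ?_
  · intro x hx
    refine ⟨refl0_mem hx.1 (hb x hx), ?_⟩
    have h1 : x i ≤ T := not_lt.1 hx.2
    rw [refl0, if_pos ⟨hi, hin⟩, refl, if_pos (avoids_self (by omega))]
    omega
  · refine ⟨⟨⟨?_, ?_⟩, ?_, ?_⟩, ?_⟩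
    · intro j hj hjn
      rw [if_pos (by omega), if_pos (by omega)]
      omega
    · intro j hj hjn
      rw [if_pos (by omega)]
      omega
    · intro j hj hjn
      simp only
      rw [if_pos (by omega)]
      omega
    · intro j hj
      simp only
      rw [if_neg hj]
    · simp only
      rw [if_pos (by omega)]
      omega
  · intro x hx hxy
    have key : ∀ j, 1 ≤ j → j + 1 ≤ n → 2 * T + 2 + (j + 1) % 2 ≤ 2 * (T + 1) := by
      intro j hj hjn
      have h1 : Avoids (refl0 n x (T + 1) i) (T + 1) i j := by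
        intro k h2 h3
        rw [hxy]
        simp only
        rw [if_pos (by omega)]
        omega
      rw [avoids_refl0 hi hin hj hjn (fun j h1 h2 h3 => (hb x hx j h1 h2 h3).1)] at h1
      have h2 := congrFun hxy j
      rw [refl0, if_pos ⟨hj, hjn⟩, refl, if_pos h1, if_pos ⟨hj, hjn⟩] at h2
      omega
    have := key 2 (by omega) (by omega)
    omega

theorem ncard_high_lt {i T : ℕ} (hn : 3 ≤ n) (hi : 1 ≤ i) (hin : i + 1 ≤ n)
    (hpar : (i + T) % 2 = 1) (hT : p ≤ T) (hp : 1 ≤ p) :
    {x ∈ W n p | T < x i}.ncard < {x ∈ W n p | ¬ T < x i}.ncard := by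
  have hlt : ∀ x ∈ {x ∈ W n p | T < x i}, T + 1 < x i := by
    rintro x ⟨hx, hxi⟩
    have := hx.2.1 i hi hin
    omega
  have hb : ∀ x ∈ {x ∈ W n p | T < x i}, ∀ j, 1 ≤ j → j + 1 ≤ n → Avoids x (T + 1) i j →
      x j ≤ 2 * (T + 1) ∧ 2 * (T + 1) ≤ x j + (2 * p + 1) := by
    intro x hx j hj hjn h
    obtain ⟨d, hd⟩ := exists_dist i j
    have h1 := above hx.1.1 hi hin (hlt x hx) d j hd hj hjn h
    have h2 := hx.1.1.le j hj hjn
    omega
  refine ncard_lt (c := T + 1) (i := i) hi hin (fun x hx => hx.1) (fun x hx => hx.1) hb ?_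
    (y := fun j => if 1 ≤ j ∧ j + 1 ≤ n then (j + 1) % 2 else 0) ?_ ?_
  · intro x hx
    refine ⟨refl0_mem hx.1 (hb x hx), ?_⟩
    have h1 := hlt x hx
    rw [refl0, if_pos ⟨hi, hin⟩, refl, if_pos (avoids_self (by omega))]
    omega
  · refine ⟨⟨⟨?_, ?_⟩, ?_, ?_⟩, ?_⟩
    · intro j hj hjn
      rw [if_pos (by omega), if_pos (by omega)]
      omega
    · intro j hj hjn
      rw [if_pos (by omega)]
      omega
    · intro j hj hjn
      simp only
      rw [if_pos (by omega)]
      omega
    · intro j hj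
      simp only
      rw [if_neg hj]
    · simp only
      rw [if_pos (by omega)]
      omega
  · intro x hx hxy
    have h1 : Avoids (refl0 n x (T + 1) i) (T + 1) i 1 := by
      intro k h2 h3
      rw [hxy]
      simp only
      rw [if_pos (by omega)]
      omega
    rw [avoids_refl0 hi hin le_rfl (by omega) (fun j h1 h2 h3 => (hb x hx j h1 h2 h3).1)] at h1
    have h2 := congrFun hxy 1
    rw [refl0, if_pos ⟨le_rfl, by omega⟩, refl, if_pos h1, if_pos ⟨le_rfl, by omega⟩] at h2
    have h3 := hx.1.1.le 1 le_rfl (by omega)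
    omega

/-! ### The permutations of the domain correspond to the walks -/

theorem move_left {i : ℕ} (v : List ℕ) (r₁ : List ℕ) :
    ∀ r₂ : List ℕ, (∀ a ∈ r₁, a + 2 ≤ i ∨ i + 2 ≤ a) →
    Relation.ReflTransGen Move (v ++ (r₁ ++ i :: r₂)) (v ++ i :: (r₁ ++ r₂)) := by
  induction r₁ using List.reverseRecOn with
  | nil => intro r₂ _; exact Relation.ReflTransGen.refl
  | append_singleton r a ih =>
    intro r₂ h
    have h1 : Move (v ++ (r ++ [a] ++ i :: r₂)) (v ++ (r ++ i :: (a :: r₂))) := by
      have := Move.mk (v ++ r) r₂ a i (h a (by simp))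
      simpa using this
    have h2 := ih (a :: r₂) (fun b hb => h b (by simp [hb]))
    have h3 : v ++ i :: (r ++ a :: r₂) = v ++ i :: (r ++ [a] ++ r₂) := by simp
    rw [h3] at h2
    exact Relation.ReflTransGen.head h1 h2

theorem Move.perm {w w' : List ℕ} (h : Move w w') : w.Perm w' := by
  cases h with
  | mk u v a b _ => exact (List.Perm.swap b a v).append_left u

theorem perm_of_reach {w w' : List ℕ} (h : Relation.ReflTransGen Move w w') : w.Perm w' := by
  induction h with
  | refl => exact List.Perm.refl _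
  | tail _ hm ih => exact ih.trans (Move.perm hm)

theorem good_of_mem {w : List ℕ} (hw : w ∈ commClass (blocks n (2 * p))) : Good n p w :=
  (good_blocks le_rfl).1.reach hw

theorem ht_of_mem {w : List ℕ} (hw : w ∈ commClass (blocks n (2 * p))) {i : ℕ} (hi : 1 ≤ i)
    (hin : i + 1 ≤ n) : 2 * p ≤ ht w i := by
  have h1 := (good_blocks (n := n) (p := p) le_rfl).2 i hi hin
  have h2 : ht w i = ht (blocks n (2 * p)) i := by
    unfold ht
    rw [(perm_of_reach hw).count_eq]
  rw [h2, h1, H]
  split_ifs <;> omega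

/-- Every walk consists of the heights of an initial segment of a word in the class. -/
theorem exists_word (N : ℕ) : ∀ x ∈ W n p, ∑ j ∈ Finset.range n, x j = N →
    ∃ w ∈ commClass (blocks n (2 * p)), ∃ v, v <+: w ∧ ht0 n v = x := by
  induction N using Nat.strong_induction_on with
  | _ N ih =>
    intro x hx hN
    by_cases hsmall : ∀ j, 1 ≤ j → j + 1 ≤ n → x j ≤ 1
    · refine ⟨blocks n (2 * p), Relation.ReflTransGen.refl, [], List.nil_prefix, ?_⟩
      ext j
      unfold ht0
      split_ifs with hj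
      · have h1 := hsmall j hj.1 hj.2
        have h2 := hx.2.1 j hj.1 hj.2
        simp only [ht, List.count_nil]
        omega
      · rw [hx.2.2 j hj]
    · push Not at hsmall
      obtain ⟨j, hj, hjn, hj1⟩ := hsmall
      obtain ⟨i, hi, hmax⟩ := Finset.exists_max_image (Finset.Icc 1 (n - 1)) x
        ⟨j, Finset.mem_Icc.2 ⟨hj, by omega⟩⟩
      rw [Finset.mem_Icc] at hi
      have hi1 := hi.1
      have hin : i + 1 ≤ n := by omega
      have hmax' : ∀ k, 1 ≤ k → k + 1 ≤ n → x k ≤ x i := fun k h1 h2 =>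
        hmax k (Finset.mem_Icc.2 ⟨h1, by omega⟩)
      have hxi : 2 ≤ x i := (Nat.succ_le_of_lt hj1).trans (hmax' j hj hjn)
      set y : ℕ → ℕ := Function.update x i (x i - 2) with hy
      have hyi : y i = x i - 2 := by simp [hy]
      have hyne : ∀ k, k ≠ i → y k = x k := fun k hk => by simp [hy, hk]
      have hyW : y ∈ W n p := by
        refine ⟨⟨?_, ?_⟩, ?_, ?_⟩
        · intro k hk hkn
          have h1 := hx.1.adj k hk hkn
          have h2 := hmax' k hk (by omega)
          have h3 := hmax' (k + 1) (by omega) (by omega)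
          by_cases hki : k = i
          · subst hki
            rw [hyi, hyne (k + 1) (by omega)]
            omega
          · by_cases hki' : k + 1 = i
            · rw [hki', hyi, hyne k (by omega)]
              rw [hki'] at h1
              omega
            · rw [hyne k hki, hyne (k + 1) hki']
              exact h1
        · intro k hk hkn
          have h1 := hx.1.le k hk hkn
          by_cases hki : k = i
          · subst hki
            rw [hyi]
            omega
          · rw [hyne k hki]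
            exact h1
        · intro k hk hkn
          have h1 := hx.2.1 k hk hkn
          by_cases hki : k = i
          · subst hki
            rw [hyi]
            omega
          · rw [hyne k hki]
            exact h1
        · intro k hk
          rw [hyne k (by rintro rfl; exact hk ⟨hi1, hin⟩)]
          exact hx.2.2 k hk
      have hsum : ∑ j ∈ Finset.range n, y j < N := by
        rw [← hN]
        apply Finset.sum_lt_sum
        · intro k _
          by_cases hki : k = i
          · subst hki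
            rw [hyi]
            omega
          · rw [hyne k hki]
        · exact ⟨i, Finset.mem_range.2 (by omega), by rw [hyi]; omega⟩
      obtain ⟨w, hw, v, ⟨r, rfl⟩, hvy⟩ := ih _ hsum y hyW rfl
      have hgood := good_of_mem hw
      have hvht : ∀ k, 1 ≤ k → k + 1 ≤ n → ht v k = y k := by
        intro k hk hkn
        have := congrFun hvy k
        rwa [ht0, if_pos ⟨hk, hkn⟩] at this
      have hir : i ∈ r := by
        have h1 := ht_of_mem hw hi1 hin
        rw [ht_append, hvht i hi1 hin, hyi] at h1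
        have h2 := hx.1.le i hi1 hin
        have h3 : 0 < r.count i := by omega
        exact List.count_pos_iff.1 h3
      obtain ⟨r₁, r₂, rfl, hir₁⟩ := List.eq_append_cons_of_mem hir
      have hfar : ∀ a ∈ r₁, a + 2 ≤ i ∨ i + 2 ≤ a := by
        intro a ha
        by_contra hcon
        have hai : a ≠ i := by
          rintro rfl
          exact hir₁ ha
        obtain ⟨r₃, r₄, rfl, har₃⟩ := List.eq_append_cons_of_mem ha
        have hletter := hgood.letter a (by simp)
        have hval := hgood.valid (v ++ (r₃ ++ [a])) (by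
          rw [List.prefix_append_right_inj]
          exact ⟨r₄ ++ i :: r₂, by simp⟩)
        have hir₃ : i ∉ r₃ := fun h => hir₁ (by simp [h])
        have e1 : ht (v ++ (r₃ ++ [a])) i = x i - 2 := by
          rw [ht_append, hvht i hi1 hin, hyi, List.count_append, List.count_eq_zero.2 hir₃,
            List.count_singleton]
          simp [hai]
        have e2 : ht (v ++ (r₃ ++ [a])) a = x a + 2 := by
          rw [ht_append, hvht a hletter.1 hletter.2, hyne a hai, List.count_append,
            List.count_eq_zero.2 har₃, List.count_singleton]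
          simp
        have h2 := hmax' a hletter.1 hletter.2
        have hcase : a + 1 = i ∨ i + 1 = a := by omega
        rcases hcase with h | h
        · have h3 := hval.adj a hletter.1 (by omega)
          have h4 := hx.1.adj a hletter.1 (by omega)
          rw [h] at h3 h4
          rw [e1, e2] at h3
          omega
        · have h3 := hval.adj i hi1 (by omega)
          have h4 := hx.1.adj i hi1 (by omega)
          rw [h] at h3 h4
          rw [e1, e2] at h3
          omega
      refine ⟨v ++ i :: (r₁ ++ r₂), Relation.ReflTransGen.trans hw (move_left v r₁ r₂ hfar),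
        v ++ [i], ⟨r₁ ++ r₂, by simp⟩, ?_⟩
      ext k
      unfold ht0
      split_ifs with hk
      · rw [ht_snoc, hvht k hk.1 hk.2]
        by_cases hki : k = i
        · subst hki
          rw [hyi, if_pos rfl]
          omega
        · rw [hyne k hki, if_neg (Ne.symm hki), add_zero]
      · rw [hx.2.2 k hk]

/-- The permutation depends on the heights only. -/
theorem prod_eq_of_ht0 (hn : 3 ≤ n) (hp : 2 * p ≤ n) {u v : List ℕ} (hu : Good n p u)
    (hv : Good n p v) (h : ht0 n u = ht0 n v) : prod u = prod v := by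
  have hh : ∀ k, 1 ≤ k → k + 1 ≤ n → ht u k = ht v k := by
    intro k hk hkn
    have := congrFun h k
    rwa [ht0, ht0, if_pos ⟨hk, hkn⟩, if_pos ⟨hk, hkn⟩] at this
  ext j
  by_cases hj : 1 ≤ j ∧ j ≤ n
  · rw [prod_apply hn hp hu hj.1 hj.2, prod_apply hn hp hv hj.1 hj.2]
    congr 1
    unfold tau
    split_ifs with h1 h2
    · exact hh 1 le_rfl (by omega)
    · exact hh (n - 1) (by omega) (by omega)
    · rw [hh (j - 1) (by omega) (by omega), hh j (by omega) (by omega)]
  · rw [prod_outside hu.letter (by omega), prod_outside hv.letter (by omega)]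

theorem before_not_iff (x : Equiv.Perm ℕ) {a b : ℕ} (hab : a ≠ b) :
    Before x a b ↔ ¬ Before x b a := by
  unfold Before
  have : x⁻¹ a ≠ x⁻¹ b := fun h => hab (x⁻¹.injective h)
  omega

theorem counts (hn : 3 ≤ n) (hp : 2 * p ≤ n) {i T : ℕ} (hi1 : 1 ≤ i) (hin : i + 1 ≤ n)
    (hT : T < n) (hpar : (i + T) % 2 = 1) :
    {x ∈ D n p | Before x (hi n i T) (lo i T)}.ncard = {x ∈ W n p | T < x i}.ncard ∧
    {x ∈ D n p | Before x (lo i T) (hi n i T)}.ncard = {x ∈ W n p | ¬ T < x i}.ncard := by
  have key : ∀ x ∈ W n p, ∃ v, Good n p v ∧ ht0 n v = x ∧ prod v ∈ D n p := by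
    intro x hx
    obtain ⟨w, hw, v, hvw, hvx⟩ := exists_word _ x hx rfl
    exact ⟨v, (good_of_mem hw).of_prefix' hvw, hvx, w, hw, v, hvw, rfl⟩
  choose! g hg hgx hgD using key
  have hbef : ∀ x ∈ W n p, ∀ j U, 1 ≤ j → j + 1 ≤ n → U < n → (j + U) % 2 = 1 →
      (Before (prod (g x)) (hi n j U) (lo j U) ↔ U < x j) := by
    intro x hx j U hj hjn hU hpar'
    rw [before_iff hn hp (hg x hx) hj hjn hU hpar']
    have := congrFun (hgx x hx) j
    rw [ht0, if_pos ⟨hj, hjn⟩] at this
    rw [this]
  have hinj : Set.InjOn (fun x => prod (g x)) (W n p) := by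
    intro x hx y hy hxy
    simp only at hxy
    ext j
    by_cases hj : 1 ≤ j ∧ j + 1 ≤ n
    · have hxp := hx.2.1 j hj.1 hj.2
      have hyp := hy.2.1 j hj.1 hj.2
      have hxl := hx.1.le j hj.1 hj.2
      have hyl := hy.1.le j hj.1 hj.2
      by_contra hne
      rcases lt_or_gt_of_ne hne with h | h
      · have h1 := hbef x hx j (x j) hj.1 hj.2 (by omega) (by omega)
        have h2 := hbef y hy j (x j) hj.1 hj.2 (by omega) (by omega)
        rw [hxy] at h1
        have := h1.1 (h2.2 h)
        omega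
      · have h1 := hbef x hx j (y j) hj.1 hj.2 (by omega) (by omega)
        have h2 := hbef y hy j (y j) hj.1 hj.2 (by omega) (by omega)
        rw [hxy] at h1
        have := h2.1 (h1.2 h)
        omega
    · rw [hx.2.2 j hj, hy.2.2 j hj]
  have hsurj : ∀ z ∈ D n p, ∃ x ∈ W n p, prod (g x) = z := by
    rintro z ⟨w, hw, v, hvw, rfl⟩
    have hv : Good n p v := (good_of_mem hw).of_prefix' hvw
    refine ⟨ht0 n v, ht0_mem hv, ?_⟩
    exact prod_eq_of_ht0 hn hp (hg _ (ht0_mem hv)) hv (hgx _ (ht0_mem hv))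
  have hne : hi n i T ≠ lo i T := (lo_lt_hi hi1 hin hT hpar).2.1.ne'
  have e1 : {x ∈ D n p | Before x (hi n i T) (lo i T)} =
      (fun x => prod (g x)) '' {x ∈ W n p | T < x i} := by
    ext z
    constructor
    · rintro ⟨hz, hz'⟩
      obtain ⟨x, hx, rfl⟩ := hsurj z hz
      exact ⟨x, ⟨hx, (hbef x hx i T hi1 hin hT hpar).1 hz'⟩, rfl⟩
    · rintro ⟨x, ⟨hx, hxT⟩, rfl⟩
      exact ⟨hgD x hx, (hbef x hx i T hi1 hin hT hpar).2 hxT⟩
  have e2 : {x ∈ D n p | Before x (lo i T) (hi n i T)} =
      (fun x => prod (g x)) '' {x ∈ W n p | ¬ T < x i} := by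
    ext z
    constructor
    · rintro ⟨hz, hz'⟩
      obtain ⟨x, hx, rfl⟩ := hsurj z hz
      refine ⟨x, ⟨hx, fun h => ?_⟩, rfl⟩
      exact (before_not_iff _ hne.symm).1 hz' ((hbef x hx i T hi1 hin hT hpar).2 h)
    · rintro ⟨x, ⟨hx, hxT⟩, rfl⟩
      refine ⟨hgD x hx, (before_not_iff _ hne.symm).2 fun h => ?_⟩
      exact hxT ((hbef x hx i T hi1 hin hT hpar).1 h)
  rw [e1, e2]
  exact ⟨(hinj.mono fun x hx => hx.1).ncard_image, (hinj.mono fun x hx => hx.1).ncard_image⟩

/-- **Theorem.** For all `n ≥ 3` and `1 ≤ p ≤ n/2` the majority relation of the uniform tally on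
`D_{n,p}` is the total order `<_{u_p}`. -/
theorem result : ∀ n p : ℕ, 3 ≤ n → 1 ≤ p → 2 * p ≤ n → ∀ a b : ℕ, 1 ≤ a → a ≤ n → 1 ≤ b →
    b ≤ n → a ≠ b → (Majority (D n p) a b ↔ Before (prod (blocks n p)) a b) := by
  intro n p hn hp hpn
  have main : ∀ a b : ℕ, 1 ≤ a → a < b → b ≤ n →
      (Majority (D n p) a b ↔ Before (prod (blocks n p)) a b) ∧
      (Majority (D n p) b a ↔ Before (prod (blocks n p)) b a) := by
    intro a b ha hab hb
    obtain ⟨i, T, hi1, hin, hT, hpar, rfl, rfl⟩ := exists_pair ha hab hb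
    obtain ⟨c1, c2⟩ := counts hn hpn hi1 hin hT hpar
    have hgb := good_blocks (n := n) (p := p) (t := p) (by omega)
    have hu := before_iff hn hpn hgb.1 hi1 hin hT hpar
    rw [hgb.2 i hi1 hin] at hu
    rw [before_not_iff _ hab.ne, hu]
    unfold Majority
    rw [c1, c2]
    rcases lt_or_ge T p with h | h
    · have h1 := ncard_low_lt hn hi1 hin hpar h
      have h2 : T < H p i := by
        unfold H
        split_ifs <;> omega
      constructor
      · constructor
        · intro h3; omega
        · intro h3; exact absurd h2 h3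
      · exact ⟨fun _ => h2, fun _ => h1⟩
    · have h1 := ncard_high_lt hn hi1 hin hpar h hp
      have h2 : ¬ T < H p i := by
        unfold H
        split_ifs <;> omega
      constructor
      · exact ⟨fun _ => h2, fun _ => h1⟩
      · constructor
        · intro h3; omega
        · intro h3; exact absurd h3 h2
  intro a b ha han hb hbn hab
  rcases lt_or_gt_of_ne hab with h | h
  · exact (main a b ha h hbn).1
  · exact (main b a hb h han).2

end Pool.Agent.Results.MP_43f1fb_co.MajorityOrder
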